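import Mathlib
import Pool.Agent.Lib.MP_52d9f3_co.Defs
import Pool.Agent.Lib.MP_52d9f3_co.M3.Sym

/-!
For patterns of length three the increasing pattern has the most avoiders, for every gap size `r`
and every length `n`.
-/

namespace Pool.Agent.Lib.MP_52d9f3_co.Old.LengthThree

open Pool.Agent.Lib.MP_52d9f3_co

theorem result (r n : ℕ) (q : Equiv.Perm (Fin 3)) :
    avCount r n q ≤ avCount r n (1 : Equiv.Perm (Fin 3)) := by
  have h := M3.avCount_swap_le r n
  rcases M3.cases_three q with rfl | rfl | rfl | rfl | rfl | rfl
  · exact le_rfl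
  · exact M3.avCount_compl_le r n _
  · exact h
  · exact (M3.avCount_compl_le r n _).trans h
  · exact (M3.avCount_rev_le r n _).trans h
  · exact (M3.avCount_rev_le r n _).trans ((M3.avCount_compl_le r n _).trans h)

end Pool.Agent.Lib.MP_52d9f3_co.Old.LengthThree
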